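import Pool.Agent.H.MP_9b97c3_lc.Defs

namespace Pool.Agent.H.MP_9b97c3_lc

open Set Filter Topology

/-- Kuratowski-Ulam, residual direction -/
theorem ku {X Y : Type*} [TopologicalSpace X] [TopologicalSpace Y] [SecondCountableTopology Y]
    {R : Set (X × Y)} (hR : R ∈ residual (X × Y)) :
    ∀ᶠ x in residual X, {y | (x, y) ∈ R} ∈ residual Y := by
  obtain ⟨S, hSo, hSd, hSc, hS⟩ := mem_residual_iff.1 hR
  obtain ⟨B, hBc, hBne, hB⟩ := TopologicalSpace.exists_countable_basis Y
  have key : ∀ D ∈ S, ∀ᶠ x in residual X, {y | (x, y) ∈ D} ∈ residual Y := by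
    intro D hD
    have : ∀ U ∈ B, ∀ᶠ x in residual X, ∃ y ∈ U, (x, y) ∈ D := by
      intro U hU
      have hUo := hB.isOpen hU
      have hUne : U.Nonempty := nonempty_iff_ne_empty.2 fun h => hBne (h ▸ hU)
      have ho : IsOpen (Prod.fst '' (D ∩ univ ×ˢ U)) :=
        isOpenMap_fst _ ((hSo D hD).inter (isOpen_univ.prod hUo))
      have hd : Dense (Prod.fst '' (D ∩ univ ×ˢ U)) := by
        rw [dense_iff_inter_open]
        intro V hV hVne
        obtain ⟨⟨x, y⟩, ⟨hx, hy⟩, hxy⟩ := (hSd D hD).inter_open_nonempty (V ×ˢ U) (hV.prod hUo)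
          (hVne.prod hUne)
        exact ⟨x, hx, (x, y), ⟨hxy, trivial, hy⟩, rfl⟩
      filter_upwards [residual_of_dense_open ho hd]
      rintro _ ⟨⟨x, y⟩, ⟨h1, -, h2⟩, rfl⟩
      exact ⟨y, h2, h1⟩
    filter_upwards [(eventually_countable_ball hBc).2 this] with x hx
    refine residual_of_dense_open ((hSo D hD).preimage (Continuous.prodMk_right x)) ?_
    rw [hB.dense_iff]
    intro U hU _
    obtain ⟨y, h1, h2⟩ := hx U hU
    exact ⟨y, h1, h2⟩
  filter_upwards [(eventually_countable_ball hSc).2 key] with x hx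
  filter_upwards [(eventually_countable_ball hSc).2 hx] with y hy
  exact hS hy

theorem cont_res {X K : Type*} [TopologicalSpace X] [MeasurableSpace X] [BorelSpace X]
    [Countable K] (f : X → K → Bool) (hf : Measurable f) :
    ∃ C ∈ residual X, ∀ w ∈ C, ∀ k, ∀ᶠ v in 𝓝 w, v ∈ C → f v k = f w k := by
  have : ∀ p : K × Bool, ∃ U : Set X, IsOpen U ∧ ∀ᶠ x in residual X, (f x p.1 = p.2 ↔ x ∈ U) := by
    intro p
    have hm : MeasurableSet {x | f x p.1 = p.2} :=
      ((measurable_pi_apply p.1).comp hf) (measurableSet_singleton p.2)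
    obtain ⟨U, hU, h⟩ := hm.residualEq_isOpen
    exact ⟨U, hU, h.mono fun x hx => iff_of_eq hx⟩
  choose U hU h using this
  refine ⟨{x | ∀ p : K × Bool, (f x p.1 = p.2 ↔ x ∈ U p)}, eventually_countable_forall.2 h, ?_⟩
  intro w hw k
  have : w ∈ U (k, f w k) := (hw (k, f w k)).1 rfl
  filter_upwards [(hU _).mem_nhds this] with v hv hvC
  exact (hvC (k, f w k)).2 hv

variable {G H : Type*} [Group G]

def sm (γ : H → G) (x : H → G → Bool) : H → G → Bool := fun j i => x j ((γ j)⁻¹ * i)

open Classical in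
noncomputable def merge (S : Finset H) (p : (H → G → Bool) × (H → G → Bool)) : H → G → Bool :=
  fun j => if j ∈ S then p.1 j else p.2 j

omit [Group G] in
theorem merge_cont (S : Finset H) : Continuous (merge (G := G) S) := by
  refine continuous_pi fun j => ?_
  unfold merge
  split_ifs <;> fun_prop

omit [Group G] in
theorem merge_open (S : Finset H) : IsOpenMap (merge (G := G) S) := by
  refine IsOpenMap.of_sections fun p => ⟨fun v => (merge S (v, p.1), merge S (p.2, v)), ?_, ?_, ?_⟩
  · exact (((merge_cont S).comp (by fun_prop)).prodMk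
      ((merge_cont S).comp (by fun_prop))).continuousAt
  · ext j i <;> by_cases h : j ∈ S <;> simp [merge, h]
  · intro v
    ext j i
    by_cases h : j ∈ S <;> simp [merge, h]

theorem sm_cont [TopologicalSpace G] [DiscreteTopology G] :
    Continuous (fun p : (H → G → Bool) × (H → G) => sm p.2 p.1) := by
  refine continuous_pi fun j => continuous_pi fun i => ?_
  have h1 : Continuous (fun q : G × (G → Bool) => q.2 (q.1⁻¹ * i)) := by
    rw [continuous_prod_of_discrete_left]
    intro a
    exact continuous_apply (a⁻¹ * i)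
  exact h1.comp (f := fun p : (H → G → Bool) × (H → G) => (p.2 j, p.1 j)) (by fun_prop)

theorem sm_open [TopologicalSpace G] [DiscreteTopology G] :
    IsOpenMap (fun p : (H → G → Bool) × (H → G) => sm p.2 p.1) := by
  refine IsOpenMap.of_sections fun p => ⟨fun v => (sm p.2⁻¹ v, p.2), ?_, ?_, ?_⟩
  · refine Continuous.continuousAt (Continuous.prodMk ?_ continuous_const)
    exact sm_cont.comp (f := fun v => (v, p.2⁻¹)) (by fun_prop)
  · ext j i <;> simp [sm]
  · intro v
    ext j i
    simp [sm]

theorem dense_orbit [Countable G] [Countable H] [Infinite G] :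
    ∀ᶠ x : H → G → Bool in residual _, ∀ (j : H) (A : Finset G) (z : G → Bool),
      ∃ g : G, ∀ i ∈ A, x j (g⁻¹ * i) = z i := by
  classical
  have : ∀ p : H × Finset G × Finset G, ∀ᶠ x : H → G → Bool in residual _,
      ∃ g : G, ∀ i ∈ p.2.1, x p.1 (g⁻¹ * i) = decide (i ∈ p.2.2) := by
    rintro ⟨j, A, T⟩
    refine residual_of_dense_open ?_ ?_
    · rw [ofPred_exists]
      refine isOpen_iUnion fun g => ?_
      have : {x : H → G → Bool | ∀ i ∈ A, x j (g⁻¹ * i) = decide (i ∈ T)} =
          ⋂ i ∈ A, (fun x : H → G → Bool => x j (g⁻¹ * i)) ⁻¹' {decide (i ∈ T)} := by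
        ext x; simp
      rw [this]
      exact isOpen_biInter_finset fun i _ => (isOpen_discrete _).preimage (by fun_prop)
    · intro x
      let m : G → H → G → Bool := fun g j' i =>
        if j' = j ∧ g * i ∈ A then decide (g * i ∈ T) else x j' i
      have ht : Tendsto m cofinite (𝓝 x) := by
        refine tendsto_pi_nhds.2 fun j' => tendsto_pi_nhds.2 fun i => ?_
        refine tendsto_const_nhds.congr' ?_
        have : {g : G | g * i ∈ A}.Finite :=
          A.finite_toSet.preimage (f := fun g => g * i) (mul_left_injective i).injOn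
        filter_upwards [this.compl_mem_cofinite] with g hg
        have : g * i ∉ A := hg
        simp [m, this]
      refine mem_closure_of_tendsto ht (Eventually.of_forall fun g => ⟨g, fun i hi => ?_⟩)
      simp [m, hi]
  filter_upwards [eventually_countable_forall.2 this] with x hx j A z
  obtain ⟨g, hg⟩ := hx (j, A, A.filter fun i => z i = true)
  refine ⟨g, fun i hi => ?_⟩
  rw [hg i hi]
  simp [hi]

omit [Group G] in
theorem avoid [Infinite G] (j : H) (q : G → Bool) :
    ∀ᶠ x : H → G → Bool in residual _, x j ≠ q := by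
  classical
  refine residual_of_dense_open (isClosed_eq (continuous_apply j) continuous_const).isOpen_compl ?_
  intro x
  let m : G → H → G → Bool := fun g j' i => if j' = j ∧ i = g then !q g else x j' i
  have ht : Tendsto m cofinite (𝓝 x) := by
    refine tendsto_pi_nhds.2 fun j' => tendsto_pi_nhds.2 fun i => ?_
    refine tendsto_const_nhds.congr' ?_
    filter_upwards [(finite_singleton i).compl_mem_cofinite] with g hg
    have : i ≠ g := fun h => hg h.symm
    simp [m, this]
  refine mem_closure_of_tendsto ht (Eventually.of_forall fun g h => ?_)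
  have := congrFun h g
  simp [m] at this

theorem main [Group H] [Countable G] [Countable H] [Infinite G] [Infinite H]
    {K : Type*} [Group K] [Countable K] (f : (H → G → Bool) → (K → Bool)) (hf : Measurable f)
    (hred : ∀ x y, jump H (jump G Eq) x y ↔ jump K Eq (f x) (f y)) : False := by
  classical
  let : TopologicalSpace G := ⊥
  have : DiscreteTopology G := ⟨rfl⟩
  obtain ⟨C, hC, hcont⟩ := cont_res f hf
  have h2 : ∀ᶠ v : H → G → Bool in residual _, ∀ S : Finset H,
      {x' | merge S (v, x') ∈ C} ∈ residual (H → G → Bool) :=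
    eventually_countable_forall.2 fun S =>
      ku (tendsto_residual_of_isOpenMap (merge_cont S) (merge_open S) hC)
  have h3 := ku (tendsto_residual_of_isOpenMap (sm_cont (G := G) (H := H)) sm_open
    (inter_mem hC h2))
  obtain ⟨x, hx, hdense⟩ := (dense_of_mem_residual (h3.and dense_orbit)).nonempty
  let A : K → Set (H → G) := fun k => {γ | (sm γ x ∈ C ∧ ∀ S : Finset H,
      {x' | merge S (sm γ x, x') ∈ C} ∈ residual (H → G → Bool)) ∧
      f (sm γ x) = fun k' => f x (k⁻¹ * k')}
  have hequiv : ∀ γ, jump H (jump G Eq) x (sm γ x) := fun γ =>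
    ⟨1, fun j => ⟨γ j, fun i => by simp [sm]⟩⟩
  have hnm : ¬ IsMeagre (⋃ k, A k) := by
    refine not_isMeagre_of_mem_residual (mem_of_superset hx fun γ hγ => ?_)
    obtain ⟨k, hk⟩ := (hred _ _).1 (hequiv γ)
    exact mem_iUnion.2 ⟨k, hγ, funext fun k' => (hk k').symm⟩
  have : ∃ k, ¬ IsNowhereDense (A k) := by
    by_contra hc
    push Not at hc
    exact hnm (isMeagre_iUnion fun k => (hc k).isMeagre)
  obtain ⟨k, hk⟩ := this
  have hO : (interior (closure (A k))).Nonempty := nonempty_iff_ne_empty.2 hk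
  have hmeet : ∀ V : Set (H → G), IsOpen V → (V ∩ interior (closure (A k))).Nonempty →
      (V ∩ interior (closure (A k)) ∩ A k).Nonempty := by
    intro V hV ⟨γ, hγ⟩
    exact mem_closure_iff.1 (interior_subset hγ.2) _ (hV.inter isOpen_interior) hγ
  obtain ⟨γ₀, ⟨-, hγ₀O⟩, ⟨-, hγ₀⟩, -⟩ := hmeet univ isOpen_univ (by simpa using hO)
  obtain ⟨S, u, hu, hS⟩ := isOpen_pi_iff.1 isOpen_interior γ₀ hγ₀O
  obtain ⟨j₀, hj₀⟩ := Infinite.exists_notMem_finset S
  have hav : ∀ᶠ x' : H → G → Bool in residual _, ∀ p : H × G,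
      x' j₀ ≠ fun i => x (p.1⁻¹ * j₀) (p.2⁻¹ * i) :=
    eventually_countable_forall.2 fun p => avoid j₀ _
  obtain ⟨x', hx'C, hx'⟩ := (dense_of_mem_residual (inter_mem (hγ₀ S) hav)).nonempty
  set w := merge S (sm γ₀ x, x') with hw
  have hfw : f w = fun k' => f x (k⁻¹ * k') := by
    funext k'
    have hN := hcont w hx'C k'
    choose c hc using fun (j : H) (B : Finset G) => hdense j B (w j)
    let γ : Finset G → H → G := fun B j => if j ∈ S then γ₀ j else c j B
    have ht : Tendsto (fun B => sm (γ B) x) atTop (𝓝 w) := by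
      refine tendsto_pi_nhds.2 fun j => tendsto_pi_nhds.2 fun i => ?_
      refine tendsto_const_nhds.congr' ?_
      filter_upwards [eventually_ge_atTop ({i} : Finset G)] with B hB
      by_cases h : j ∈ S
      · simp [sm, γ, h, hw, merge]
      · simp only [sm, γ, h, if_false]
        exact (hc j B i (hB (Finset.mem_singleton_self i))).symm
    obtain ⟨B, hB⟩ := (ht.eventually (eventually_eventually_nhds.2 hN)).exists
    have hcs : Continuous fun δ : H → G => sm δ x :=
      sm_cont.comp (f := fun δ => (x, δ)) (by fun_prop)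
    obtain ⟨δ, ⟨hδ1, -⟩, ⟨hδ2, -⟩, hδ3⟩ := hmeet
      ((fun δ : H → G => sm δ x) ⁻¹' interior {v | v ∈ C → f v k' = f w k'})
      (isOpen_interior.preimage hcs) ⟨γ B, mem_interior_iff_mem_nhds.2 hB, hS (by
        intro j hj
        have hj' : j ∈ S := hj
        simp only [γ, hj', if_true]
        exact (hu j hj').2)⟩
    rw [← interior_subset hδ1 hδ2, hδ3]
  have : jump H (jump G Eq) x w := (hred _ _).2 ⟨k, fun k' => by rw [hfw]⟩
  obtain ⟨h, hh⟩ := this
  obtain ⟨g, hg⟩ := hh j₀
  apply hx' (h, g)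
  funext i
  rw [hg i]
  simp [hw, merge, hj₀]

end Pool.Agent.H.MP_9b97c3_lc
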