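import Mathlib

namespace Pool.Agent.H.MP_9b97c3_lc

def jump (G : Type*) [Group G] {X : Type*} (E : X → X → Prop) (α β : G → X) : Prop :=
  ∃ g : G, ∀ h : G, E (α (g⁻¹ * h)) (β h)

end Pool.Agent.H.MP_9b97c3_lc
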